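import Pool.Agent.LibKV.Down
import Pool.Agent.LibCov80.Pull

/-! Good minimal models on finite covers: the transfer theorem. -/

set_option autoImplicit false

open scoped Classical

namespace Pool.Agent.LibKV

open Pool.Agent.LibGMM Pool.Agent.LibGMC Pool.Agent.LibCov80 Pool.Agent.LibK

section

variable {k : Type} [Field k] [Algebra ℂ k] {K : Type} [Field K] [Algebra ℂ K] [Algebra k K]
  [IsScalarTower ℂ k K] [FiniteDimensional k K]

/-- If all klt pairs on `X` with pseudo-effective log canonical class have good minimal models, then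
all klt pairs on a finite cover of `X` whose log canonical class is pseudo-effective and the
pull-back of a class on `X` have good minimal models. -/
theorem gmm_transfer {X : NormalModel k} {Y : NormalModel K} (h : IsCover X Y)
    (ω₀ : TopForm k) (ω : TopForm K)
    (hX : ∀ Δ₀ : DVal k → ℝ, IsKlt X ω₀ Δ₀ → PseudoEff X (lcDiv ω₀ Δ₀) →
      ∃ W : NormalModel k, IsGoodMinimalModel X ω₀ Δ₀ W)
    (Δ : DVal K → ℝ) (hΔ : IsKlt Y ω Δ) (hp : PseudoEff Y (lcDiv ω Δ))
    (M : DVal k → ℝ) (hM : X.RCartier M) (M' : DVal K → ℝ) (hMM : Pulls M' M)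
    (hlin : Y.RLinEq (lcDiv ω Δ) M')
    (ram : ∃ c : Kˣ, ∀ (Q : DVal K) (q : DVal k) (e : ℕ), Over Q q e → q.Divisorial →
      canOrd Q ω + 1 = (e : ℤ) * (canOrd q ω₀ + 1) + Q.ord (c : K))
    (divisorial : ∀ (Q : DVal K) (q : DVal k) (e : ℕ), Over Q q e → q.Divisorial → Q.Divisorial)
    (hprime : ∀ q, X.IsPrimeDiv q → q.Divisorial)
    (hfinX : {q | X.IsPrimeDiv q ∧ canOrd q ω₀ ≠ 0}.Finite)
    (hfinY : {Q | Y.IsPrimeDiv Q ∧ canOrd Q ω ≠ 0}.Finite) :
    ∃ W' : NormalModel K, IsGoodMinimalModel Y ω Δ W' := by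
  obtain ⟨Δ₀, hklt, hcls⟩ := klt_down h ω₀ ω Δ hΔ M hM M' hMM hlin ram divisorial hprime
    hfinX hfinY
  have hP := pulls_pullD (K := K) (lcDiv ω₀ Δ₀)
  have hlin' := hcls _ hP
  have hpe := pe_down h hP hlin' hp
  obtain ⟨W, hW⟩ := hX Δ₀ hklt hpe
  obtain ⟨W', -, hW'⟩ := gmm_up h ω₀ Δ₀ W hW ω Δ hΔ _ hP hlin'
  exact ⟨W', hW'⟩

end

end Pool.Agent.LibKV
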