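import Pool.Agent.LibCov80.Norm
import Mathlib.FieldTheory.Normal.Closure
import Mathlib.RingTheory.Norm.Basic

/-! Norms of real combinations of rational functions on a finite cover, and averages over the
valuations above a given one. -/

set_option autoImplicit false

open scoped Classical

namespace Pool.Agent.LibKV

open Pool.Agent.LibGMM Pool.Agent.LibGMC Pool.Agent.LibCov80

section

variable {k : Type} [Field k] [Algebra ℂ k] {K : Type} [Field K] [Algebra ℂ K] [Algebra k K]
  [IsScalarTower ℂ k K] [FiniteDimensional k K]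

omit [Algebra ℂ K] [IsScalarTower ℂ k K] in
/-- There is a valuation above `q`. -/
theorem exists_above [Algebra ℂ K] [IsScalarTower ℂ k K] (q : DVal k) :
    ∃ (Q : DVal K) (e : ℕ), Over Q q e := by
  by_contra hcon
  push Not at hcon
  obtain ⟨t, ht⟩ := q.exists_ord_one
  have ht0 : t ≠ 0 := by rintro rfl; rw [q.ord_zero] at ht; exact zero_ne_one ht
  have h1 := integral_of_over (K := K) q (algebraMap k K t⁻¹) fun Q e h => absurd h (hcon Q e)
  have hpid := ring_pid q
  have hfr := ring_frac q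
  have h2 : IsIntegral q.ring t⁻¹ :=
    (isIntegral_algebraMap_iff (algebraMap k K).injective).1 h1
  obtain ⟨y, hy⟩ := IsIntegrallyClosed.isIntegral_iff.1 h2
  have h3 : 0 ≤ q.ord t⁻¹ := by rw [← hy]; exact y.2
  rw [q.ord_inv, ht] at h3
  omega

/-- The norm of a real combination of rational functions. -/
noncomputable def nrmF (f : Kˣ →₀ ℝ) : kˣ →₀ ℝ :=
  f.mapDomain (Units.map (Algebra.norm k : K →* k))

omit [IsScalarTower ℂ k K] [FiniteDimensional k K] [Algebra ℂ K] in
theorem ordR_nrmF (q : DVal k) (f : Kˣ →₀ ℝ) :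
    ordR q (nrmF f) = f.sum fun u r => r * (q.ord (Algebra.norm k (u : K)) : ℝ) := by
  unfold ordR nrmF
  rw [Finsupp.sum_mapDomain_index (by simp) (by intros; ring)]
  rfl

end

section

variable {k : Type} [Field k] [Algebra ℂ k] {K : Type} [Field K] [Algebra ℂ K] [Algebra k K]
  [IsScalarTower ℂ k K] [FiniteDimensional k K]
  {L : Type} [Field L] [Algebra ℂ L] [Algebra k L] [IsScalarTower ℂ k L] [FiniteDimensional k L]

/-- Restriction of a valuation along an embedding. -/
theorem exists_restrict {q : DVal k} {Q' : DVal L} {E : ℕ} (h : Over Q' q E) (τ : K →ₐ[k] L) :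
    ∃ (Q : DVal K) (e e' : ℕ), 0 < e' ∧ Over Q q e ∧ e' * e = E ∧
      ∀ x : K, Q'.ord (τ x) = e' * Q.ord x := by
  let _ : Algebra K L := τ.toRingHom.toAlgebra
  have hmap : ∀ x : K, algebraMap K L x = τ x := fun x => rfl
  have h1 : IsScalarTower k K L := IsScalarTower.of_algebraMap_eq fun x => by
    rw [hmap, AlgHom.commutes]
  have h2 : IsScalarTower ℂ K L := IsScalarTower.of_algebraMap_eq fun x => by
    rw [hmap, IsScalarTower.algebraMap_apply ℂ k K, AlgHom.commutes,
      ← IsScalarTower.algebraMap_apply]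
  have h3 : FiniteDimensional K L := FiniteDimensional.right k K L
  obtain ⟨Q, e', hQ⟩ := exists_over (k := K) Q'
  obtain ⟨q', e, hq⟩ := exists_over (k := k) Q
  have h4 : Over Q' q' (e' * e) := ⟨Nat.mul_pos hQ.pos hq.pos, fun x => by
    have h5 : algebraMap k L x = algebraMap K L (algebraMap k K x) :=
      IsScalarTower.algebraMap_apply k K L x
    rw [h5, hQ.ord, hq.ord]
    push_cast
    ring⟩
  have h5 := h4.unique h
  subst h5
  exact ⟨Q, e, e', hQ.pos, hq, h4.unique' h, fun x => hQ.ord x⟩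

theorem norm_data_of (hcard : Fintype.card (K →ₐ[k] L) = Module.finrank k K)
    (hnorm : ∀ x : K, algebraMap k L (Algebra.norm k x) = ∏ τ : K →ₐ[k] L, τ x) (q : DVal k) :
    ∃ (T : Type) (_ : Fintype T) (Qs : T → DVal K) (e e' : T → ℕ) (E : ℕ), 0 < E ∧
      Fintype.card T = Module.finrank k K ∧ (∀ t, 0 < e' t) ∧ (∀ t, Over (Qs t) q (e t)) ∧
      (∀ t, e' t * e t = E) ∧
      ∀ f : Kˣ →₀ ℝ, (E : ℝ) * ordR q (nrmF f) = ∑ t, (e' t : ℝ) * ordR (Qs t) f := by
  obtain ⟨Q', E, hQ'⟩ := exists_above (K := L) q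
  choose Qs e e' he' hover hE hord using fun τ : K →ₐ[k] L => exists_restrict hQ' τ
  refine ⟨K →ₐ[k] L, inferInstance, Qs, e, e', E, hQ'.pos, hcard, he', hover, hE, fun f => ?_⟩
  have hprod : ∀ (s : Finset (K →ₐ[k] L)) (u : Kˣ), Q'.ord (∏ τ ∈ s, τ (u : K)) =
      ∑ τ ∈ s, Q'.ord (τ (u : K)) := by
    intro s u
    induction s using Finset.induction_on with
    | empty => simp [Q'.ord_one]
    | insert a s ha ih =>
      rw [Finset.prod_insert ha, Finset.sum_insert ha, Q'.ord_mul', ih]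
      · exact (map_ne_zero _).2 (Units.ne_zero u)
      · exact Finset.prod_ne_zero_iff.2 fun τ _ => (map_ne_zero _).2 (Units.ne_zero u)
  have hu : ∀ u : Kˣ, (E : ℝ) * (q.ord (Algebra.norm k (u : K)) : ℝ) =
      ∑ τ : K →ₐ[k] L, (e' τ : ℝ) * ((Qs τ).ord (u : K) : ℝ) := by
    intro u
    have h1 := hQ'.ord (Algebra.norm k (u : K))
    rw [hnorm, hprod] at h1
    have h2 : ∑ τ : K →ₐ[k] L, Q'.ord (τ (u : K)) =
        ∑ τ : K →ₐ[k] L, (e' τ : ℤ) * (Qs τ).ord (u : K) :=
      Finset.sum_congr rfl fun τ _ => hord τ u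
    rw [h2] at h1
    have h3 : (((∑ τ : K →ₐ[k] L, (e' τ : ℤ) * (Qs τ).ord (u : K) : ℤ)) : ℝ) =
        ((E * q.ord (Algebra.norm k (u : K)) : ℤ) : ℝ) := by rw [h1]
    push_cast at h3
    exact h3.symm
  rw [ordR_nrmF]
  unfold ordR
  rw [Finsupp.sum, Finset.mul_sum]
  simp only [Finsupp.sum, Finset.mul_sum]
  rw [Finset.sum_comm]
  refine Finset.sum_congr rfl fun u _ => ?_
  have h1 := hu u
  calc (E : ℝ) * (f u * (q.ord (Algebra.norm k (u : K)) : ℝ))
      = f u * ((E : ℝ) * (q.ord (Algebra.norm k (u : K)) : ℝ)) := by ring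
    _ = f u * ∑ τ : K →ₐ[k] L, (e' τ : ℝ) * ((Qs τ).ord (u : K) : ℝ) := by rw [h1]
    _ = ∑ t, (e' t : ℝ) * (f u * ((Qs t).ord (u : K) : ℝ)) := by
        rw [Finset.mul_sum]
        exact Finset.sum_congr rfl fun τ _ => by ring

end

section

variable {k : Type} [Field k] [Algebra ℂ k] {K : Type} [Field K] [Algebra ℂ K] [Algebra k K]
  [IsScalarTower ℂ k K] [FiniteDimensional k K]

/-- The valuations above `q`, counted with multiplicity, and the norm. -/
theorem exists_norm_data (q : DVal k) :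
    ∃ (T : Type) (_ : Fintype T) (Qs : T → DVal K) (e e' : T → ℕ) (E : ℕ), 0 < E ∧
      Fintype.card T = Module.finrank k K ∧ (∀ t, 0 < e' t) ∧ (∀ t, Over (Qs t) q (e t)) ∧
      (∀ t, e' t * e t = E) ∧
      ∀ f : Kˣ →₀ ℝ, (E : ℝ) * ordR q (nrmF f) = ∑ t, (e' t : ℝ) * ordR (Qs t) f := by
  have hsep := isSeparable (k := k) (K := K)
  let A := AlgebraicClosure k
  let L := IntermediateField.normalClosure k K A
  let _ : Algebra ℂ L := ((algebraMap k L).comp (algebraMap ℂ k)).toAlgebra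
  have hT : IsScalarTower ℂ k L := IsScalarTower.of_algebraMap_eq fun x => rfl
  have hfd : FiniteDimensional k L := inferInstance
  -- embeddings into `A` land in `L`
  have hmem : ∀ (σ : K →ₐ[k] A) (x : K), σ x ∈ L := by
    intro σ x
    have h1 : σ.fieldRange ≤ L := AlgHom.fieldRange_le_normalClosure σ
    exact h1 ⟨x, rfl⟩
  let toL : (K →ₐ[k] A) → (K →ₐ[k] L) := fun σ =>
    AlgHom.codRestrict σ L.toSubalgebra (hmem σ)
  let eqv : (K →ₐ[k] A) ≃ (K →ₐ[k] L) :=
    { toFun := toL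
      invFun := fun τ => L.val.comp τ
      left_inv := fun σ => AlgHom.ext fun x => rfl
      right_inv := fun τ => AlgHom.ext fun x => Subtype.ext rfl }
  refine norm_data_of (L := L) ?_ ?_ q
  · rw [← AlgHom.card k K A]
    exact (Fintype.card_congr eqv).symm
  · intro x
    apply (algebraMap L A).injective
    have h1 := Algebra.norm_eq_prod_embeddings k A x
    have h2 : algebraMap L A (algebraMap k L (Algebra.norm k x)) =
        algebraMap k A (Algebra.norm k x) := rfl
    rw [h2, h1, map_prod]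
    exact Fintype.prod_equiv eqv _ _ fun σ => rfl

/-- The average of a nonnegative quantity is nonnegative. -/
theorem avg_nonneg (q : DVal k) (f : Kˣ →₀ ℝ) (c : ℝ)
    (h : ∀ (Q : DVal K) (e : ℕ), Over Q q e → 0 ≤ (e : ℝ) * c + ordR Q f) :
    0 ≤ c + 1 / (Module.finrank k K : ℝ) * ordR q (nrmF f) := by
  obtain ⟨T, hT, Qs, e, e', E, hE, hcard, he', hover, hee, hf⟩ := exists_norm_data (K := K) q
  have hd : (0 : ℝ) < (Module.finrank k K : ℝ) := by exact_mod_cast Module.finrank_pos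
  have hE' : (0 : ℝ) < E := by exact_mod_cast hE
  have h1 : 0 ≤ ∑ t, (e' t : ℝ) * ((e t : ℝ) * c + ordR (Qs t) f) :=
    Finset.sum_nonneg fun t _ => mul_nonneg (by positivity) (h _ _ (hover t))
  have h2 : ∑ t, (e' t : ℝ) * ((e t : ℝ) * c + ordR (Qs t) f) =
      (Module.finrank k K : ℝ) * (E * c) + E * ordR q (nrmF f) := by
    rw [hf f, ← hcard, ← Finset.card_univ, ← nsmul_eq_mul, ← Finset.sum_const,
      ← Finset.sum_add_distrib]
    refine Finset.sum_congr rfl fun t _ => ?_
    have h3 : ((e' t : ℝ)) * (e t : ℝ) = E := by exact_mod_cast hee t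
    rw [← h3]
    ring
  rw [h2] at h1
  have h3 : c + 1 / (Module.finrank k K : ℝ) * ordR q (nrmF f) =
      ((Module.finrank k K : ℝ) * (E * c) + E * ordR q (nrmF f)) /
        ((Module.finrank k K : ℝ) * E) := by
    field_simp
  rw [h3]
  positivity

/-- The average of a positive quantity is positive. -/
theorem avg_pos (q : DVal k) (f : Kˣ →₀ ℝ) (c : ℝ)
    (h : ∀ (Q : DVal K) (e : ℕ), Over Q q e → 0 < (e : ℝ) * c + ordR Q f) :
    0 < c + 1 / (Module.finrank k K : ℝ) * ordR q (nrmF f) := by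
  obtain ⟨T, hT, Qs, e, e', E, hE, hcard, he', hover, hee, hf⟩ := exists_norm_data (K := K) q
  have hd' : 0 < Module.finrank k K := Module.finrank_pos
  have hd : (0 : ℝ) < (Module.finrank k K : ℝ) := by exact_mod_cast hd'
  have hE' : (0 : ℝ) < E := by exact_mod_cast hE
  have hne : (Finset.univ : Finset T).Nonempty := by
    rw [← Finset.card_pos, Finset.card_univ, hcard]; exact hd'
  have h1 : 0 < ∑ t, (e' t : ℝ) * ((e t : ℝ) * c + ordR (Qs t) f) :=
    Finset.sum_pos (fun t _ => mul_pos (by exact_mod_cast he' t) (h _ _ (hover t))) hne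
  have h2 : ∑ t, (e' t : ℝ) * ((e t : ℝ) * c + ordR (Qs t) f) =
      (Module.finrank k K : ℝ) * (E * c) + E * ordR q (nrmF f) := by
    rw [hf f, ← hcard, ← Finset.card_univ, ← nsmul_eq_mul, ← Finset.sum_const,
      ← Finset.sum_add_distrib]
    refine Finset.sum_congr rfl fun t _ => ?_
    have h3 : ((e' t : ℝ)) * (e t : ℝ) = E := by exact_mod_cast hee t
    rw [← h3]
    ring
  rw [h2] at h1
  have h3 : c + 1 / (Module.finrank k K : ℝ) * ordR q (nrmF f) =
      ((Module.finrank k K : ℝ) * (E * c) + E * ordR q (nrmF f)) /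
        ((Module.finrank k K : ℝ) * E) := by
    field_simp
  rw [h3]
  positivity

omit [IsScalarTower ℂ k K] [FiniteDimensional k K] [Algebra ℂ K] in
theorem nrmF_add (f g : Kˣ →₀ ℝ) : nrmF (k := k) (f + g) = nrmF f + nrmF g :=
  Finsupp.mapDomain_add

omit [IsScalarTower ℂ k K] [FiniteDimensional k K] [Algebra ℂ K] in
theorem ordR_nrmF_neg (q : DVal k) (f : Kˣ →₀ ℝ) :
    ordR q (nrmF (-f)) = - ordR q (nrmF f) := by
  have h1 : nrmF (k := k) (-f) + nrmF f = 0 := by
    rw [← nrmF_add, neg_add_cancel]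
    exact Finsupp.mapDomain_zero
  have h2 := ordR_add q (nrmF (k := k) (-f)) (nrmF f)
  rw [h1] at h2
  have h3 : ordR q (0 : kˣ →₀ ℝ) = 0 := by
    unfold ordR
    exact Finsupp.sum_zero_index
  linarith

end

end Pool.Agent.LibKV
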