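import Pool.Agent.LibCov80.Ram
import Pool.Agent.LibGMM.G4

/-! The canonical divisor is a finite combination of prime divisors. -/

set_option autoImplicit false

open scoped Classical KaehlerDifferential

namespace Pool.Agent.LibKV

open Pool.Agent.LibGMM Pool.Agent.LibGMC Pool.Agent.LibCov80

variable {K : Type} [Field K] [Algebra ℂ K]

/-- A basis of the differentials among the differentials of the coordinates of a chart. -/
theorem exists_basis_chart (X : NormalModel K) (i : X.ι) :
    ∃ s : Fin (Module.finrank K (Ω[K⁄ℂ])) → X.ι, ∀ z, z ∈ Submodule.span K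
      (Set.range fun l => KaehlerDifferential.D ℂ K ((X.g (s l) : K) / X.g i)) := by
  have hXf := X.fin
  have hfin := finite_kaehler X
  set S : Set (Ω[K⁄ℂ]) := Set.range fun j : X.ι =>
    KaehlerDifferential.D ℂ K ((X.g j : K) / X.g i) with hS
  have hs : ⊤ ≤ Submodule.span K S := by
    rw [← KaehlerDifferential.span_range_derivation, Submodule.span_le]
    rintro _ ⟨x, rfl⟩
    have h1 := D_mem X i ⊤ le_top (fun x _ => by
      obtain ⟨a, ha, b, hb, hb0, hab⟩ := X.frac i x
      exact ⟨a, ha, b, hb, hb0, Algebra.mem_top, hab⟩) x Algebra.mem_top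
    refine Submodule.span_induction (p := fun z _ => z ∈ Submodule.span K S) ?_ ?_ ?_ ?_ h1
    · exact fun z hz => Submodule.subset_span hz
    · exact Submodule.zero_mem _
    · exact fun y z _ _ h1 h2 => Submodule.add_mem _ h1 h2
    · exact fun a z _ h1 => Submodule.smul_mem _ (a : K) h1
  let b := Module.Basis.ofSpan hs
  have hb : Set.range b ⊆ S := Module.Basis.ofSpan_subset hs
  have := Module.Finite.finite_basis b
  have := Fintype.ofFinite ((linearIndepOn_empty K id).extend (Set.empty_subset S))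
  have hcard := Module.finrank_eq_card_basis b
  let e := Fintype.equivFinOfCardEq hcard.symm
  choose x hx using fun l => hb ⟨e.symm l, rfl⟩
  refine ⟨x, fun z => ?_⟩
  have h1 : z ∈ Submodule.span K (Set.range b) := by rw [b.span_eq]; trivial
  refine Submodule.span_mono ?_ h1
  rintro _ ⟨l, rfl⟩
  refine ⟨e l, ?_⟩
  have h2 := hx (e l)
  beta_reduce at h2 ⊢
  rw [h2]
  simp

theorem finite_canOrd (X : NormalModel K) {ω : TopForm K} (hω : ω ≠ 0) :
    {Q | X.IsPrimeDiv Q ∧ canOrd Q ω ≠ 0}.Finite := by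
  have hXf := X.fin
  have hfin := finite_kaehler X
  obtain ⟨lam, hlam0, hlam⟩ := exists_coord hfin ω hω
  choose s hs using exists_basis_chart X
  have hc : ∀ (i j : X.ι), ∃ c : Fin (Module.finrank K (Ω[K⁄ℂ])) → K,
      ∑ l, c l • KaehlerDifferential.D ℂ K ((X.g (s i l) : K) / X.g i) =
        KaehlerDifferential.D ℂ K ((X.g j : K) / X.g i) := fun i j =>
    (Submodule.mem_span_range_iff_exists_fun K).1 (hs i _)
  choose c hc using hc
  have hl0 : ∀ i, (lam fun l => KaehlerDifferential.D ℂ K ((X.g (s i l) : K) / X.g i)) ≠ 0 :=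
    fun i => coord_ne_zero lam hlam0 _ (hs i)
  -- the exceptional prime divisors
  have hfinu : ∀ z : K, {Q | X.IsPrimeDiv Q ∧ Q.ord z ≠ 0}.Finite := by
    intro z
    by_cases hz : z = 0
    · refine Set.finite_empty.subset ?_
      rintro Q ⟨-, h⟩
      exact absurd (by rw [hz, Q.ord_zero]) h
    · exact X.finite_ord_ne (Units.mk0 z hz)
  refine (Set.finite_iUnion fun i : X.ι => (Set.finite_iUnion fun j : X.ι =>
    Set.finite_iUnion fun l => hfinu (c i j l)).union
      (hfinu (lam fun l => KaehlerDifferential.D ℂ K ((X.g (s i l) : K) / X.g i)))).subset ?_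
  rintro Q ⟨hQ, hQ0⟩
  obtain ⟨i, hi, hfrac⟩ := exists_frac_ord X Q hQ
  rw [Set.mem_iUnion]
  refine ⟨i, ?_⟩
  by_contra hcon
  rw [Set.mem_union, not_or] at hcon
  obtain ⟨h1, h2⟩ := hcon
  have h3 : ∀ j l, Q.ord (c i j l) = 0 := by
    intro j l
    by_contra h4
    exact h1 (Set.mem_iUnion.2 ⟨j, Set.mem_iUnion.2 ⟨l, hQ, h4⟩⟩)
  have h4 : Q.ord (lam fun l => KaehlerDifferential.D ℂ K ((X.g (s i l) : K) / X.g i)) = 0 := by
    by_contra h5
    exact h2 ⟨hQ, h5⟩
  have hxr : ∀ l, (X.g (s i l) : K) / X.g i ∈ Q.ring := fun l => hi (ratio_mem_chart X.g i _)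
  apply hQ0
  have h5 := canOrd_eq Q hω lam hlam (fun l => ⟨(X.g (s i l) : K) / X.g i, hxr l⟩) ?_ (hl0 i)
  · rw [h5]
    exact neg_eq_zero.2 h4
  · intro z
    have h6 := D_mem X i Q.ring hi hfrac (z : K) z.2
    refine (Submodule.span_le (p := Submodule.span Q.ring (Set.range fun l =>
      KaehlerDifferential.D ℂ K ((X.g (s i l) : K) / X.g i)))).2 ?_ h6
    rintro _ ⟨j, rfl⟩
    have h7 := hc i j
    beta_reduce
    rw [← h7]
    refine Submodule.sum_mem _ fun l _ => ?_
    refine coe_smul_mem Q.ring _ (c i j l) ?_ _ (Submodule.subset_span ⟨l, rfl⟩)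
    exact (h3 j l).ge

end Pool.Agent.LibKV
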