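import Pool.Agent.LibCov80.Ram

/-! Divisorial valuations on finite covers. -/

set_option autoImplicit false

open scoped Classical

namespace Pool.Agent.LibKV

open Pool.Agent.LibGMM Pool.Agent.LibGMC Pool.Agent.LibCov80

section

variable {K : Type} [Field K] [Algebra ℂ K]

theorem chart_fg (X : NormalModel K) (i : X.ι) : (chart X.g i).FG := by
  have := X.fin
  refine ⟨(Set.finite_range fun j => (X.g j : K) / X.g i).toFinset, ?_⟩
  rw [Set.Finite.coe_toFinset]; rfl

/-- Prime divisors are divisorial valuations. -/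
theorem divisorial_of_prime {X : NormalModel K} {Q : DVal K} (hQ : X.IsPrimeDiv Q) :
    Q.Divisorial := by
  obtain ⟨i, hi, hfrac⟩ := exists_frac_ord X Q hQ
  refine ⟨chart X.g i, chart_fg X i, fun a ha => hi ha, fun x hx => ?_⟩
  obtain ⟨a, ha, b, hb, hb0, hbi, hab⟩ := hfrac x hx
  refine ⟨a, ha, b, hb, hb0, ?_, hab⟩
  have h1 : 0 ≤ Q.ord b := hi hb
  have h2 : 0 ≤ Q.ord b⁻¹ := hbi
  rw [Q.ord_inv] at h2
  omega

end

section

variable {k : Type} [Field k] [Algebra ℂ k] {K : Type} [Field K] [Algebra ℂ K] [Algebra k K]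
  [IsScalarTower ℂ k K] [FiniteDimensional k K]

/-- Valuations above a divisorial valuation are divisorial. -/
theorem divisorial_up {Q : DVal K} {q : DVal k} {e : ℕ} (hQ : Over Q q e) (hq : q.Divisorial) :
    Q.Divisorial := by
  obtain ⟨A, ⟨s, hs⟩, hA0, hfrac⟩ := hq
  have hsep := isSeparable (k := k) (K := K)
  have hpid := ring_pid q
  have hfr := ring_frac q
  let B₀ := integralClosure q.ring K
  have hfin : Module.Finite q.ring B₀ := IsIntegralClosure.finite q.ring k K B₀
  obtain ⟨S, hS⟩ := hfin.fg_top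
  -- the finitely generated algebra
  let G : Finset K := s.image (algebraMap k K) ∪ S.image fun b : B₀ => (b : K)
  have hAG : ∀ a ∈ A, algebraMap k K a ∈ Algebra.adjoin ℂ (G : Set K) := by
    intro a ha
    rw [← hs] at ha
    induction ha using Algebra.adjoin_induction with
    | mem x hx =>
      refine Algebra.subset_adjoin ?_
      rw [Finset.coe_union, Finset.coe_image]
      exact Or.inl ⟨x, hx, rfl⟩
    | algebraMap r => rw [← IsScalarTower.algebraMap_apply]; exact Subalgebra.algebraMap_mem _ r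
    | add x y _ _ h1 h2 => rw [map_add]; exact Subalgebra.add_mem _ h1 h2
    | mul x y _ _ h1 h2 => rw [map_mul]; exact Subalgebra.mul_mem _ h1 h2
  have hBQ : ∀ b : K, IsIntegral q.ring b → 0 ≤ Q.ord b := fun b hb =>
    hQ.nonneg_of_integral (A := q.ring) (fun a ha => ha) hb
  -- elements of the integral closure
  have hmem : ∀ b : K, IsIntegral q.ring b → ∃ s ∈ A, s ≠ 0 ∧ q.ord s = 0 ∧
      algebraMap k K s * b ∈ Algebra.adjoin ℂ (G : Set K) := by
    intro b hb
    have h1 : (⟨b, hb⟩ : B₀) ∈ Submodule.span q.ring (S : Set B₀) := by rw [hS]; trivial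
    have h2 : ∀ z : B₀, z ∈ Submodule.span q.ring (S : Set B₀) → ∃ s ∈ A, s ≠ 0 ∧ q.ord s = 0 ∧
        algebraMap k K s * (z : K) ∈ Algebra.adjoin ℂ (G : Set K) := by
      intro z hz
      induction hz using Submodule.span_induction with
      | mem x hx =>
        refine ⟨1, A.one_mem, one_ne_zero, q.ord_one, ?_⟩
        rw [map_one, one_mul]
        refine Algebra.subset_adjoin ?_
        rw [Finset.coe_union, Finset.coe_image, Finset.coe_image]
        exact Or.inr ⟨x, hx, rfl⟩
      | zero =>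
        refine ⟨1, A.one_mem, one_ne_zero, q.ord_one, ?_⟩
        have h3 : ((0 : B₀) : K) = 0 := rfl
        rw [h3, mul_zero]
        exact Subalgebra.zero_mem _
      | add x y _ _ h1 h2 =>
        obtain ⟨s1, hs1, hs10, hs1o, h1⟩ := h1
        obtain ⟨s2, hs2, hs20, hs2o, h2⟩ := h2
        refine ⟨s1 * s2, A.mul_mem hs1 hs2, mul_ne_zero hs10 hs20, ?_, ?_⟩
        · rw [q.ord_mul' hs10 hs20, hs1o, hs2o, add_zero]
        · have h3 : ((x + y : B₀) : K) = (x : K) + (y : K) := rfl
          have h4 : algebraMap k K (s1 * s2) * ((x : K) + (y : K)) =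
              algebraMap k K s2 * (algebraMap k K s1 * (x : K)) +
                algebraMap k K s1 * (algebraMap k K s2 * (y : K)) := by
            rw [map_mul]; ring
          rw [h3, h4]
          exact Subalgebra.add_mem _ (Subalgebra.mul_mem _ (hAG _ hs2) h1)
            (Subalgebra.mul_mem _ (hAG _ hs1) h2)
      | smul r x _ h1 =>
        obtain ⟨s1, hs1, hs10, hs1o, h1⟩ := h1
        obtain ⟨a, ha, b, hb, hb0, hbo, hab⟩ := hfrac (r : k) r.2
        refine ⟨b * s1, A.mul_mem hb hs1, mul_ne_zero hb0 hs10, ?_, ?_⟩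
        · rw [q.ord_mul' hb0 hs10, hs1o, hbo, add_zero]
        · have h3 : ((r • x : B₀) : K) = algebraMap k K (r : k) * (x : K) := by
            have h5 : r • x = algebraMap q.ring B₀ r * x := Algebra.smul_def r x
            rw [h5]
            rfl
          have h4 : algebraMap k K (b * s1) * (algebraMap k K (r : k) * (x : K)) =
              algebraMap k K a * (algebraMap k K s1 * (x : K)) := by
            have h5 : (b : k) * (r : k) = a := by rw [hab]; field_simp
            rw [← h5, map_mul, map_mul]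
            ring
          rw [h3, h4]
          exact Subalgebra.mul_mem _ (hAG _ ha) h1
    exact h2 _ h1
  refine ⟨Algebra.adjoin ℂ (G : Set K), ⟨G, rfl⟩, ?_, ?_⟩
  · have h1 : Algebra.adjoin ℂ (G : Set K) ≤ Q.ring := by
      rw [Algebra.adjoin_le_iff, Finset.coe_union, Finset.coe_image, Finset.coe_image]
      rintro x (⟨a, ha, rfl⟩ | ⟨b, -, rfl⟩)
      · have h2 : a ∈ A := by rw [← hs]; exact Algebra.subset_adjoin ha
        exact (hQ.nonneg_iff a).2 (hA0 a h2)
      · exact hBQ _ b.2
    exact fun a ha => h1 ha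
  · intro y hy
    obtain ⟨b, hbV, hbV', hb0, ⟨q₁, hq1m, hq1c, hq1e⟩, ⟨q₂, hq2m, hq2c, hq2e⟩⟩ :=
      exists_integral_denominator (algebraMap k K).fieldRange (fun z => by
        obtain ⟨g, hg0, hg⟩ := Algebra.IsAlgebraic.isAlgebraic (R := k) z
        refine ⟨g.map (algebraMap k K), ?_, ?_, ?_⟩
        · rw [Ne, Polynomial.map_eq_zero]; exact hg0
        · intro n
          rw [Polynomial.coeff_map]
          exact ⟨_, rfl⟩
        · rw [Polynomial.eval_map, ← Polynomial.aeval_def]; exact hg) Q.toVal y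
        ((Q.mem_toVal).2 hy)
    have hlift : ∀ c : K, c ∈ (algebraMap k K).fieldRange → c ∈ Q.toVal →
        c ∈ Set.range (algebraMap q.ring K) := by
      rintro _ ⟨c, rfl⟩ hc
      exact ⟨⟨c, (hQ.nonneg_iff c).1 ((Q.mem_toVal).1 hc)⟩, rfl⟩
    have hb1 : IsIntegral q.ring b := integral_lift q₁ hq1m
      (fun n => hlift _ (hq1c n).1 (hq1c n).2) b hq1e
    have hb2 : IsIntegral q.ring (b * y) := integral_lift q₂ hq2m
      (fun n => hlift _ (hq2c n).1 (hq2c n).2) _ hq2e
    have hordb : Q.ord b = 0 := by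
      have h1 := (Q.mem_toVal).1 hbV
      have h2 := (Q.mem_toVal).1 hbV'
      rw [Q.ord_inv] at h2
      omega
    obtain ⟨s1, hs1, hs10, hs1o, h1⟩ := hmem b hb1
    obtain ⟨s2, hs2, hs20, hs2o, h2⟩ := hmem (b * y) hb2
    have hs1' : algebraMap k K s1 ≠ 0 := (map_ne_zero _).2 hs10
    have hs2' : algebraMap k K s2 ≠ 0 := (map_ne_zero _).2 hs20
    refine ⟨_, Subalgebra.mul_mem _ (hAG _ hs1) h2, _, Subalgebra.mul_mem _ (hAG _ hs2) h1,
      mul_ne_zero hs2' (mul_ne_zero hs1' hb0), ?_, ?_⟩
    · rw [Q.ord_mul' hs2' (mul_ne_zero hs1' hb0), Q.ord_mul' hs1' hb0, hQ.ord, hQ.ord, hs1o, hs2o,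
        hordb]
      simp
    · field_simp

end

end Pool.Agent.LibKV
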