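import Pool.Agent.LibKV.Up

/-! Klt pairs on a finite cover descend. -/

set_option autoImplicit false

open scoped Classical

namespace Pool.Agent.LibKV

open Pool.Agent.LibGMM Pool.Agent.LibGMC Pool.Agent.LibCov80 Pool.Agent.LibK

section

variable {K : Type} [Field K] [Algebra ℂ K]

theorem finite_ordR_ne (X : NormalModel K) (f : Kˣ →₀ ℝ) :
    {Q | X.IsPrimeDiv Q ∧ ordR Q f ≠ 0}.Finite := by
  refine (Set.Finite.biUnion f.support.finite_toSet fun u _ => X.finite_ord_ne u).subset ?_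
  rintro Q ⟨hQ, hQ0⟩
  by_contra hcon
  apply hQ0
  unfold ordR
  refine Finset.sum_eq_zero fun u hu => ?_
  by_cases h1 : Q.ord (u : K) = 0
  · beta_reduce; rw [h1]; simp
  · exact absurd (Set.mem_biUnion (show u ∈ (f.support : Set Kˣ) from hu)
      (show Q ∈ {Q | X.IsPrimeDiv Q ∧ Q.ord (u : K) ≠ 0} from ⟨hQ, h1⟩)) hcon

end

section

variable {k : Type} [Field k] [Algebra ℂ k] {K : Type} [Field K] [Algebra ℂ K] [Algebra k K]
  [IsScalarTower ℂ k K] [FiniteDimensional k K]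

/-- Let `(Y, Δ)` be a klt pair on a finite cover `Y` of `X` such that `K_Y + Δ` is the pull-back of
an `ℝ`-Cartier divisor `M` on `X`, up to `ℝ`-linear equivalence. Then `K_Y + Δ` is the pull-back of
the log canonical class of a klt pair on `X`, up to `ℝ`-linear equivalence. -/
theorem klt_down {X : NormalModel k} {Y : NormalModel K} (h : IsCover X Y)
    (ω₀ : TopForm k) (ω : TopForm K) (Δ : DVal K → ℝ) (hΔ : IsKlt Y ω Δ)
    (M : DVal k → ℝ) (hM : X.RCartier M) (M' : DVal K → ℝ) (hMM : Pulls M' M)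
    (hlin : Y.RLinEq (lcDiv ω Δ) M')
    (ram : ∃ c : Kˣ, ∀ (Q : DVal K) (q : DVal k) (e : ℕ), Over Q q e → q.Divisorial →
      canOrd Q ω + 1 = (e : ℤ) * (canOrd q ω₀ + 1) + Q.ord (c : K))
    (divisorial : ∀ (Q : DVal K) (q : DVal k) (e : ℕ), Over Q q e → q.Divisorial → Q.Divisorial)
    (hprime : ∀ q, X.IsPrimeDiv q → q.Divisorial)
    (hfinX : {q | X.IsPrimeDiv q ∧ canOrd q ω₀ ≠ 0}.Finite)
    (hfinY : {Q | Y.IsPrimeDiv Q ∧ canOrd Q ω ≠ 0}.Finite) :
    ∃ Δ₀ : DVal k → ℝ, IsKlt X ω₀ Δ₀ ∧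
      ∀ P' : DVal K → ℝ, Pulls P' (lcDiv ω₀ Δ₀) → Y.RLinEq (lcDiv ω Δ) P' := by
  obtain ⟨c, hc⟩ := ram
  obtain ⟨φ, hφ⟩ := hlin
  have hd : (0 : ℝ) < (Module.finrank k K : ℝ) := by exact_mod_cast Module.finrank_pos
  set φ' : Kˣ →₀ ℝ := φ - Finsupp.single c 1 with hφ'
  have hφord : ∀ Q : DVal K, ordR Q φ' = ordR Q φ - (Q.ord (c : K) : ℝ) := by
    intro Q
    rw [hφ', ordR_sub, ordR_single, one_mul]
  have hcR : ∀ (Q : DVal K) (q : DVal k) (e : ℕ), Over Q q e → q.Divisorial →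
      (canOrd Q ω : ℝ) + 1 = (e : ℝ) * ((canOrd q ω₀ : ℝ) + 1) + (Q.ord (c : K) : ℝ) := by
    intro Q q e hQ hq
    have h1 := hc Q q e hQ hq
    exact_mod_cast h1
  set N : kˣ →₀ ℝ := nrmF φ' with hN
  set D₀ : DVal k → ℝ := fun q => M q + 1 / (Module.finrank k K : ℝ) * ordR q N with hD₀
  set Δ₀ : DVal k → ℝ := fun q => D₀ q - (canOrd q ω₀ : ℝ) with hΔ₀
  have hlc : ∀ q, lcDiv ω₀ Δ₀ q = D₀ q := by
    intro q
    change (canOrd q ω₀ : ℝ) + (D₀ q - (canOrd q ω₀ : ℝ)) = D₀ q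
    ring
  -- `K_Y + Δ` in terms of `D₀`
  have hkey : ∀ (Q : DVal K) (q : DVal k) (e : ℕ), Over Q q e → Y.IsPrimeDiv Q →
      lcDiv ω Δ Q = (e : ℝ) * D₀ q + ordR Q (φ - (1 / (Module.finrank k K : ℝ)) • upF N) := by
    intro Q q e hQ hQp
    rw [hφ Q hQp, hMM Q q e hQ, ordR_sub, ordR_smul, hQ.ordR_up]
    change _ = (e : ℝ) * (M q + 1 / (Module.finrank k K : ℝ) * ordR q N) + _
    ring
  refine ⟨Δ₀, ⟨?_, ?_, ?_, ?_⟩, ?_⟩
  · -- effectivity
    intro q hq
    have h1 : 0 ≤ (M q - (canOrd q ω₀ : ℝ)) + 1 / (Module.finrank k K : ℝ) * ordR q N := by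
      refine avg_nonneg q φ' _ fun Q e hQ => ?_
      have hQp := prime_up h hQ hq
      have h2 := hΔ.nonneg Q hQp
      have h3 := hφ Q hQp
      rw [hMM Q q e hQ] at h3
      have h4 := hcR Q q e hQ (hprime q hq)
      have h5 : (1 : ℝ) ≤ e := by exact_mod_cast hQ.pos
      unfold lcDiv at h3
      rw [hφord]
      have h6 : (e : ℝ) * (M q - (canOrd q ω₀ : ℝ)) = e * M q - (e * ((canOrd q ω₀ : ℝ) + 1) - e) := by
        ring
      rw [h6]
      linarith
    change 0 ≤ M q + 1 / (Module.finrank k K : ℝ) * ordR q N - (canOrd q ω₀ : ℝ)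
    linarith
  · -- finiteness
    have hB : {Q | Y.IsPrimeDiv Q ∧ (Δ Q ≠ 0 ∨ canOrd Q ω ≠ 0 ∨ ordR Q φ ≠ 0)}.Finite := by
      refine ((hΔ.finite.union hfinY).union (finite_ordR_ne Y φ)).subset ?_
      rintro Q ⟨hQ, h1 | h1 | h1⟩
      · exact Or.inl (Or.inl ⟨hQ, h1⟩)
      · exact Or.inl (Or.inr ⟨hQ, h1⟩)
      · exact Or.inr ⟨hQ, h1⟩
    have hMfin : {q | X.IsPrimeDiv q ∧ M q ≠ 0}.Finite := by
      refine (hB.image fun Q => (exists_over (k := k) Q).choose).subset ?_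
      rintro q ⟨hq, hq0⟩
      obtain ⟨Q, e, hQ⟩ := exists_above (K := K) q
      have hQp := prime_up h hQ hq
      refine ⟨Q, ⟨hQp, ?_⟩, ?_⟩
      · by_contra hcon
        push Not at hcon
        obtain ⟨h1, h2, h3⟩ := hcon
        have h4 := hφ Q hQp
        rw [hMM Q q e hQ, h3] at h4
        unfold lcDiv at h4
        rw [h1, h2] at h4
        have h5 : (e : ℝ) * M q = 0 := by push_cast at h4; linarith
        have h6 : (0 : ℝ) < e := by exact_mod_cast hQ.pos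
        rcases mul_eq_zero.1 h5 with h7 | h7
        · linarith
        · exact hq0 h7
      · have h1 := (exists_over (k := k) Q).choose_spec.choose_spec
        exact (hQ.unique h1).symm
    refine ((hMfin.union hfinX).union (finite_ordR_ne X N)).subset ?_
    rintro q ⟨hq, hq0⟩
    by_contra hcon
    apply hq0
    have h1 : M q = 0 := by
      by_contra h2; exact hcon (Or.inl (Or.inl ⟨hq, h2⟩))
    have h2 : canOrd q ω₀ = 0 := by
      by_contra h3; exact hcon (Or.inl (Or.inr ⟨hq, h3⟩))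
    have h3 : ordR q N = 0 := by
      by_contra h4; exact hcon (Or.inr ⟨hq, h4⟩)
    change M q + 1 / (Module.finrank k K : ℝ) * ordR q N - (canOrd q ω₀ : ℝ) = 0
    rw [h1, h2, h3]
    simp
  · -- `ℝ`-Cartier
    intro p
    obtain ⟨f, hf⟩ := hM p
    refine ⟨f + (1 / (Module.finrank k K : ℝ)) • N, fun q hq hqp => ?_⟩
    rw [hlc, ordR_add, ordR_smul, ← hf q hq hqp]
  · -- discrepancies
    intro O p f hO hOp hf
    have h1 : 0 < ((canOrd O ω₀ : ℝ) + 1 - ordR O f +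
        1 / (Module.finrank k K : ℝ) * ordR O N) +
        1 / (Module.finrank k K : ℝ) * ordR O (nrmF (-φ')) := by
      refine avg_pos O (-φ') _ fun Q e hQ => ?_
      obtain ⟨p', hp'⟩ := Y.exists_centre Q
      obtain ⟨p'', h1, h2, -⟩ := h.image p'
      have hp'' := hQ.centre hp' h1 h2
      have hloc : Y.LocEq (lcDiv ω Δ) p'
          (upF f + (φ - (1 / (Module.finrank k K : ℝ)) • upF N)) := by
        intro R hR hRp
        obtain ⟨r, e', hr⟩ := exists_over (k := k) R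
        have hrp : X.IsPrimeDiv r := prime_down h hr hR
        have hthr : X.Through r p := by
          intro x hx
          have h3 := h1 x (loc_le_of_centres X O p p'' hOp hp'' x hx)
          exact (hr.nonneg_iff x).1 (hRp _ h3)
        have h3 := hf r hrp hthr
        rw [hlc] at h3
        rw [hkey R r e' hr hR, ordR_add, hr.ordR_up, h3]
      have h3 := hΔ.klt Q p' _ (divisorial Q O e hQ hO) hp' hloc
      have h4 := hcR Q O e hQ hO
      rw [ordR_add, hQ.ordR_up, ordR_sub, ordR_smul, hQ.ordR_up] at h3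
      rw [ordR_neg, hφord]
      have h5 : (e : ℝ) * ((canOrd O ω₀ : ℝ) + 1 - ordR O f +
          1 / (Module.finrank k K : ℝ) * ordR O N) = e * ((canOrd O ω₀ : ℝ) + 1) -
            e * ordR O f + 1 / (Module.finrank k K : ℝ) * (e * ordR O N) := by ring
      rw [h5]
      linarith
    rw [ordR_nrmF_neg, ← hN] at h1
    linarith
  · -- the class
    intro P' hP'
    refine ⟨φ - (1 / (Module.finrank k K : ℝ)) • upF N, fun Q hQp => ?_⟩
    obtain ⟨q, e, hQ⟩ := exists_over (k := k) Q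
    rw [hP' Q q e hQ, hlc, hkey Q q e hQ hQp]

end

end Pool.Agent.LibKV
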