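import Pool.Agent.LibKV.Nrm
import Pool.Agent.LibCov80.Big
import Pool.Agent.LibGMM.G8
import Pool.Agent.LibK.Base

/-! Good minimal models and pseudo-effectivity on finite covers. -/

set_option autoImplicit false

open scoped Classical

namespace Pool.Agent.LibKV

open Pool.Agent.LibGMM Pool.Agent.LibGMC Pool.Agent.LibCov80 Pool.Agent.LibK

section

variable {k : Type} [Field k] [Algebra ℂ k] {K : Type} [Field K] [Algebra ℂ K] [Algebra k K]
  [IsScalarTower ℂ k K] [FiniteDimensional k K]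

/-- The normalisation in `K` of a good minimal model of a pair on `X` is a good minimal model of
every klt pair on the cover `Y` whose log canonical class is the pull-back. -/
theorem gmm_up {X : NormalModel k} {Y : NormalModel K} (h : IsCover X Y) (ω₀ : TopForm k)
    (Δ₀ : DVal k → ℝ) (W : NormalModel k) (hW : IsGoodMinimalModel X ω₀ Δ₀ W) (ω : TopForm K)
    (Δ : DVal K → ℝ) (hΔ : IsKlt Y ω Δ) (D' : DVal K → ℝ) (hD' : Pulls D' (lcDiv ω₀ Δ₀))
    (hlin : Y.RLinEq (lcDiv ω Δ) D') :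
    ∃ W' : NormalModel K, IsCover W W' ∧ IsGoodMinimalModel Y ω Δ W' := by
  obtain ⟨W', hW'⟩ := exists_cover (K := K) W
  obtain ⟨N, c, G, hc, hG, f, hf⟩ := hW.semiample
  obtain ⟨g, hg⟩ := hlin
  have hWW := klt_of_semiample W W ω₀ Δ₀ hW.klt (fun Q hQ => hQ) N c G f hc hG hf
    (fun Q hQ => (hf Q hQ).ge)
  -- comparison below
  have hlt : ∀ q, X.IsPrimeDiv q → ¬ W.IsPrimeDiv q →
      ∑ j, c j * sys q (G j) + ordR q f < lcDiv ω₀ Δ₀ q := by
    intro q hq hq'
    obtain ⟨p, hp⟩ := W.exists_centre q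
    obtain ⟨f', hf'⟩ := hW.klt.cartier p
    have h1 := hW.negative q p f' hq hq' hp hf'
    have h2 := hWW.2 q p f' hp hf'
    unfold lcDiv
    linarith
  have hup : ∀ Q q e, Over Q q e → ∑ j, c j * sys Q (up K (G j)) + ordR Q (upF f + g) =
      e * (∑ j, c j * sys q (G j) + ordR q f) + ordR Q g := by
    intro Q q e hq
    rw [ordR_add, hq.ordR_up, mul_add, Finset.mul_sum]
    have h1 : ∑ j, c j * sys Q (up K (G j)) = ∑ j, (e : ℝ) * (c j * sys q (G j)) :=
      Finset.sum_congr rfl fun j _ => by rw [hq.sys_up]; ring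
    rw [h1]
    ring
  have hsub : ∀ Q, W'.IsPrimeDiv Q → Y.IsPrimeDiv Q := by
    intro Q hQ
    obtain ⟨q, e, hq⟩ := exists_over (k := k) Q
    exact prime_up h hq (hW.contraction q (prime_down hW' hq hQ))
  have hkey : ∀ Q, W'.IsPrimeDiv Q →
      lcDiv ω Δ Q = ∑ j, c j * sys Q (up K (G j)) + ordR Q (upF f + g) := by
    intro Q hQ
    obtain ⟨q, e, hq⟩ := exists_over (k := k) Q
    rw [hup Q q e hq, hg Q (hsub Q hQ), hD' Q q e hq, hf q (prime_down hW' hq hQ)]
  have hYW : ∀ Q, Y.IsPrimeDiv Q →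
      ∑ j, c j * sys Q (up K (G j)) + ordR Q (upF f + g) ≤ lcDiv ω Δ Q := by
    intro Q hQ
    obtain ⟨q, e, hq⟩ := exists_over (k := k) Q
    rw [hup Q q e hq, hg Q hQ, hD' Q q e hq]
    refine add_le_add (mul_le_mul_of_nonneg_left ?_ (Nat.cast_nonneg e)) le_rfl
    by_cases hqW : W.IsPrimeDiv q
    · exact (hf q hqW).ge
    · exact (hlt q (prime_down h hq hQ) hqW).le
  have hklt := klt_of_semiample Y W' ω Δ hΔ hsub N c (fun j => up K (G j)) (upF f + g) hc
    (fun j => hW'.bpf (hG j)) hkey hYW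
  refine ⟨W', hW', hsub, hklt.1, ⟨N, c, fun j => up K (G j), hc, fun j => hW'.bpf (hG j),
    upF f + g, hkey⟩, ?_⟩
  intro Q p f' hQ hQ' hp' hf'
  have h1 := hklt.2 Q p f' hp' hf'
  rw [h1]
  obtain ⟨q, e, hq⟩ := exists_over (k := k) Q
  have hqW : ¬ W.IsPrimeDiv q := fun h2 => hQ' (prime_up hW' hq h2)
  have h2 := hlt q (prime_down h hq hQ) hqW
  have h3 := hg Q hQ
  rw [hD' Q q e hq] at h3
  rw [hup Q q e hq]
  have h4 : (0 : ℝ) < e := by exact_mod_cast hq.pos
  have h5 := mul_lt_mul_of_pos_left h2 h4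
  unfold lcDiv at h3 h5
  linarith

/-- Pseudo-effectivity descends. -/
theorem pe_down {X : NormalModel k} {Y : NormalModel K} (h : IsCover X Y) {D : DVal k → ℝ}
    {D' E : DVal K → ℝ} (hD : Pulls D' D) (hlin : Y.RLinEq E D') (hp : PseudoEff Y E) :
    PseudoEff X D := by
  intro ε hε
  obtain ⟨M, z, hM, hz⟩ := hyperplane_le X Y
  have hM' : (0 : ℝ) < M := by exact_mod_cast hM
  obtain ⟨f, hf⟩ := hp (ε / M) (div_pos hε hM')
  obtain ⟨g, hg⟩ := hlin
  have hd : (0 : ℝ) < (Module.finrank k K : ℝ) := by exact_mod_cast Module.finrank_pos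
  refine ⟨(1 / (Module.finrank k K : ℝ)) • nrmF (g + (ε / M) • Finsupp.single z 1 + f),
    fun q hq => ?_⟩
  rw [ordR_smul]
  refine avg_nonneg q _ _ fun Q e hQ => ?_
  have hQp := prime_up h hQ hq
  have h1 := hf Q hQp
  have h2 := hg Q hQp
  have h3 := mul_le_mul_of_nonneg_left (hz Q q e hQ) (div_pos hε hM').le
  rw [hD Q q e hQ] at h2
  rw [ordR_add, ordR_add, ordR_smul, ordR_single, one_mul]
  have h4 : ε / M * (M * (e * X.hyperplane q) + (Q.ord (z : K) : ℝ)) =
      ε * (e * X.hyperplane q) + ε / M * (Q.ord (z : K) : ℝ) := by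
    field_simp
  rw [h4] at h3
  beta_reduce at h1
  rw [h2] at h1
  have h5 : (e : ℝ) * (D q + ε * X.hyperplane q) = e * D q + ε * (e * X.hyperplane q) := by ring
  rw [h5]
  linarith

end

end Pool.Agent.LibKV
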